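import Pool.Agent.helper73.ASU.Spec2

set_option autoImplicit false

/-!
# asu:A1E: large values of the twisted sums at one scale
-/

namespace Pool.Agent.ASU

open Finset Pool.Agent.helper3.FT

/-- one `j` -/
theorem A1E_one (hHMB : HMB_stmt) (k N X j : ℕ) (C₁ C₂ ε V : ℝ) (hN : 1 ≤ N) (hX : 1 ≤ X) (hε : 0 < ε) (hC₁ : 0 < C₁) (hV : 0 < V)
    (hC₂ : 1 + 2 * Real.log X ≤ C₂ * (X : ℝ) ^ ε) (hC₂0 : 0 < C₂) (c : ℕ → ℂ)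
    (hc : ∀ m ∈ Icc 1 (N ^ k), ‖c m‖ ≤ C₁ * (N : ℝ) ^ (ε / 8))
    (hG : ∀ (p : ℕ) [Fact p.Prime] (χ : DirichletCharacter ℂ p), GS χ N j ^ k = ∑ m ∈ Icc 1 (N ^ k), c m * χ (m : ZMod p))
    (hVC : 2 * C₁ ^ 2 * C₂ * ((X : ℝ) ^ (1 + ε) * (N : ℝ) ^ ((k : ℝ) + ε)) ≤ V ^ (2 * k))
    (E : Finset ℕ) (hE : ∀ p ∈ E, p.Prime ∧ p ≤ X ∧ ∃ χ : DirichletCharacter ℂ p, χ ≠ 1 ∧ V ≤ ‖GS χ N j‖) :
    E.card * V ^ (2 * k) ≤ 2 * C₁ ^ 2 * (N : ℝ) ^ (2 * (k : ℝ) + ε) := by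
  classical
  have hNr : (1 : ℝ) ≤ N := by exact_mod_cast hN
  have hN0 : (0 : ℝ) < N := by linarith
  have hXr : (1 : ℝ) ≤ X := by exact_mod_cast hX
  have hX0 : (0 : ℝ) < X := by linarith
  obtain ⟨χ, hχ⟩ : ∃ χ : (p : ℕ) → DirichletCharacter ℂ p, ∀ p ∈ E, χ p ≠ 1 ∧ V ≤ ‖GS (χ p) N j‖ := by
    refine ⟨fun p => if h : ∃ χ : DirichletCharacter ℂ p, χ ≠ 1 ∧ V ≤ ‖GS χ N j‖ then h.choose else 1, fun p hp => ?_⟩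
    have h := (hE p hp).2.2
    simp only
    rw [dif_pos h]
    exact h.choose_spec
  have h1 := hHMB X (N ^ k) E χ c hX fun p hp => ⟨(hE p hp).1, (hE p hp).2.1, (hχ p hp).1⟩
  have h2 : (E.card : ℝ) * V ^ (2 * k) ≤ ∑ p ∈ E, ‖∑ m ∈ Icc 1 (N ^ k), c m * χ p (m : ZMod p)‖ ^ 2 := by
    rw [← nsmul_eq_mul, ← Finset.sum_const]
    refine Finset.sum_le_sum fun p hp => ?_
    haveI : Fact p.Prime := ⟨(hE p hp).1⟩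
    rw [← hG p (χ p), norm_pow, mul_comm 2 k, pow_mul]
    exact pow_le_pow_left₀ (by positivity) (pow_le_pow_left₀ hV.le (hχ p hp).2 k) 2
  have h3 : ∑ m ∈ Icc 1 (N ^ k), ‖c m‖ ^ 2 ≤ (N : ℝ) ^ k * (C₁ * (N : ℝ) ^ (ε / 8)) ^ 2 := by
    refine (Finset.sum_le_sum fun m hm => pow_le_pow_left₀ (norm_nonneg _) (hc m hm) 2).trans ?_
    rw [Finset.sum_const, nsmul_eq_mul, Nat.card_Icc, Nat.add_sub_cancel]
    push_cast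
    exact le_rfl
  have h4 : (C₁ * (N : ℝ) ^ (ε / 8)) ^ 2 ≤ C₁ ^ 2 * (N : ℝ) ^ ε := by
    rw [mul_pow, ← Real.rpow_natCast ((N : ℝ) ^ (ε / 8)) 2, ← Real.rpow_mul hN0.le]
    refine mul_le_mul_of_nonneg_left ?_ (by positivity)
    refine Real.rpow_le_rpow_of_exponent_le hNr ?_
    push_cast
    linarith
  have hk : (N : ℝ) ^ k = (N : ℝ) ^ (k : ℝ) := (Real.rpow_natCast _ _).symm
  have h5 : ∑ m ∈ Icc 1 (N ^ k), ‖c m‖ ^ 2 ≤ C₁ ^ 2 * (N : ℝ) ^ ((k : ℝ) + ε) := by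
    refine h3.trans ?_
    rw [Real.rpow_add hN0, ← hk]
    calc (N : ℝ) ^ k * (C₁ * (N : ℝ) ^ (ε / 8)) ^ 2 ≤ (N : ℝ) ^ k * (C₁ ^ 2 * (N : ℝ) ^ ε) := by gcongr
      _ = C₁ ^ 2 * ((N : ℝ) ^ k * (N : ℝ) ^ ε) := by ring
  have hlog : 0 ≤ Real.log X := Real.log_nonneg hXr
  have h6 : (X : ℝ) * (1 + 2 * Real.log X) ≤ C₂ * (X : ℝ) ^ (1 + ε) := by
    rw [Real.rpow_add hX0, Real.rpow_one]
    calc (X : ℝ) * (1 + 2 * Real.log X) ≤ X * (C₂ * (X : ℝ) ^ ε) := by gcongr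
      _ = C₂ * (X * (X : ℝ) ^ ε) := by ring
  have h7 : (E.card : ℝ) * V ^ (2 * k) ≤ ((N : ℝ) ^ k + E.card * (C₂ * (X : ℝ) ^ (1 + ε))) * (C₁ ^ 2 * (N : ℝ) ^ ((k : ℝ) + ε)) := by
    refine (h2.trans h1).trans ?_
    push_cast
    have : (0 : ℝ) ≤ E.card := Nat.cast_nonneg _
    gcongr
  have h8 : (N : ℝ) ^ k * (C₁ ^ 2 * (N : ℝ) ^ ((k : ℝ) + ε)) = C₁ ^ 2 * (N : ℝ) ^ (2 * (k : ℝ) + ε) := by
    rw [hk, mul_left_comm, ← Real.rpow_add hN0]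
    congr 2
    ring
  have h9 : (E.card : ℝ) * (C₂ * (X : ℝ) ^ (1 + ε)) * (C₁ ^ 2 * (N : ℝ) ^ ((k : ℝ) + ε)) ≤ E.card * V ^ (2 * k) / 2 := by
    have h10 : (0 : ℝ) ≤ E.card := Nat.cast_nonneg _
    have h11 := mul_le_mul_of_nonneg_left hVC h10
    have h12 : (E.card : ℝ) * (2 * C₁ ^ 2 * C₂ * ((X : ℝ) ^ (1 + ε) * (N : ℝ) ^ ((k : ℝ) + ε))) =
        2 * (E.card * (C₂ * (X : ℝ) ^ (1 + ε)) * (C₁ ^ 2 * (N : ℝ) ^ ((k : ℝ) + ε))) := by ring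
    linarith
  rw [add_mul, h8] at h7
  linarith

theorem A1E (hPOW : POW_stmt) (hHMB : HMB_stmt) : A1E_stmt := by
  classical
  intro k hk ε hε
  obtain ⟨C₁, hC₁, hP⟩ := hPOW k hk (ε / 8) (by linarith)
  obtain ⟨C₂, hC₂⟩ : ∃ C₂ : ℝ, C₂ = 1 + 2 / ε := ⟨_, rfl⟩
  have hC₂1 : 1 ≤ C₂ := by
    rw [hC₂]
    have : 0 < 2 / ε := by positivity
    linarith
  refine ⟨4 * C₁ ^ 2 * C₂, by positivity, fun N X hN hX V hV E hE hVC => ?_⟩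
  have hNr : (1 : ℝ) ≤ N := by exact_mod_cast hN
  have hN0 : (0 : ℝ) < N := by linarith
  have hXr : (1 : ℝ) ≤ X := by exact_mod_cast hX
  have hX0 : (0 : ℝ) < X := by linarith
  have hlog : 1 + 2 * Real.log X ≤ C₂ * (X : ℝ) ^ ε := by
    have h1 := Real.log_le_rpow_div hX0.le hε
    have h2 : (1 : ℝ) ≤ (X : ℝ) ^ ε := Real.one_le_rpow hXr hε.le
    rw [hC₂]
    calc 1 + 2 * Real.log X ≤ (X : ℝ) ^ ε + 2 * ((X : ℝ) ^ ε / ε) := by linarith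
      _ = (1 + 2 / ε) * (X : ℝ) ^ ε := by ring
  obtain ⟨Ej, hEj⟩ : ∃ Ej : ℕ → Finset ℕ, ∀ j, Ej j = E.filter fun p => ∃ χ : DirichletCharacter ℂ p, χ ≠ 1 ∧ V ≤ ‖GS χ N j‖ := ⟨_, fun _ => rfl⟩
  have hone : ∀ j ∈ range (2 * N), ((Ej j).card : ℝ) * V ^ (2 * k) ≤ 2 * C₁ ^ 2 * (N : ℝ) ^ (2 * (k : ℝ) + ε) := by
    intro j _
    obtain ⟨c, hc, hG⟩ := hP N j hN
    refine A1E_one hHMB k N X j C₁ C₂ ε V hN hX hε hC₁ hV hlog (by linarith) c hc hG ?_ (Ej j) ?_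
    · refine le_trans ?_ hVC
      have h3 : 0 ≤ C₁ ^ 2 * C₂ * ((X : ℝ) ^ (1 + ε) * (N : ℝ) ^ ((k : ℝ) + ε)) := by positivity
      linarith
    · intro p hp
      rw [hEj, mem_filter] at hp
      exact ⟨(hE p hp.1).1, (hE p hp.1).2.1, hp.2⟩
  have hsub : E ⊆ (range (2 * N)).biUnion Ej := by
    intro p hp
    obtain ⟨_, _, χ, h1, j, h2, h3⟩ := hE p hp
    rw [mem_biUnion]
    refine ⟨j, mem_range.2 h2, ?_⟩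
    rw [hEj, mem_filter]
    exact ⟨hp, χ, h1, h3⟩
  have hcard : (E.card : ℝ) ≤ ∑ j ∈ range (2 * N), ((Ej j).card : ℝ) := by
    have h1 := (card_le_card hsub).trans card_biUnion_le
    exact_mod_cast h1
  have hV2 : 0 ≤ V ^ (2 * k) := by positivity
  calc (E.card : ℝ) * V ^ (2 * k) ≤ (∑ j ∈ range (2 * N), ((Ej j).card : ℝ)) * V ^ (2 * k) := mul_le_mul_of_nonneg_right hcard hV2
    _ = ∑ j ∈ range (2 * N), ((Ej j).card : ℝ) * V ^ (2 * k) := Finset.sum_mul _ _ _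
    _ ≤ ∑ _j ∈ range (2 * N), 2 * C₁ ^ 2 * (N : ℝ) ^ (2 * (k : ℝ) + ε) := Finset.sum_le_sum hone
    _ = 4 * C₁ ^ 2 * (N : ℝ) ^ (2 * (k : ℝ) + 1 + ε) := by
        rw [Finset.sum_const, nsmul_eq_mul, card_range, show 2 * (k : ℝ) + 1 + ε = (2 * (k : ℝ) + ε) + 1 by ring, Real.rpow_add hN0 (2 * (k : ℝ) + ε) 1, Real.rpow_one]
        push_cast
        ring
    _ ≤ 4 * C₁ ^ 2 * C₂ * (N : ℝ) ^ (2 * (k : ℝ) + 1 + ε) := by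
        refine mul_le_mul_of_nonneg_right ?_ (by positivity)
        have : 0 ≤ 4 * C₁ ^ 2 := by positivity
        nlinarith

end Pool.Agent.ASU
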